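import Pool.Agent.MP_489091_co.Net

open Module

namespace Pool.Agent.Results.MP_489091_co.Counterexample

open Pool.Agent.MP_489091_co

/-- For every finite field `F` with `q` elements and every prime `k > q` there is a reverse oddtown
family of subspaces of `F ^ n`, `n = 2 k + 2`, with more than `[n - 1]_q` members. -/
theorem result (F : Type) [Field F] [Fintype F] (k : ℕ) (hk : k.Prime)
    (hq : Fintype.card F < k) :
    ∃ 𝓕 : Finset (Submodule F (Fin (2 * k + 2) → F)),
      (∀ A ∈ 𝓕, Even (Module.finrank F A)) ∧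
      (∀ A ∈ 𝓕, ∀ B ∈ 𝓕, A ≠ B → Odd (Module.finrank F (A ⊓ B : Submodule F _))) ∧
      𝓕.card = (Fintype.card F + 1) * Fintype.card F ^ k *
        ∑ i ∈ Finset.range k, Fintype.card F ^ i ∧
      ∑ i ∈ Finset.range (2 * k + 2 - 1), Fintype.card F ^ i < 𝓕.card := by
  classical
  obtain ⟨p, hp⟩ := CharP.exists F
  have : Fact p.Prime := ⟨CharP.char_is_prime F p⟩
  have : NeZero k := ⟨hk.ne_zero⟩
  have hK := FiniteField.finrank_extension F p k
  rw [Fintype.card_eq_nat_card] at hq ⊢
  obtain ⟨ι, _, A, hc, he, ho⟩ := exists_family F (FiniteField.Extension F p k) hk hK hq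
  have := Fintype.ofFinite ι
  obtain ⟨e⟩ : Nonempty (((F × F) × FiniteField.Extension F p k × FiniteField.Extension F p k)
      ≃ₗ[F] (Fin (2 * k + 2) → F)) :=
    FiniteDimensional.nonempty_linearEquiv_of_finrank_eq (by
      rw [finrank_prod, finrank_prod, finrank_prod, finrank_self, hK, finrank_fin_fun]
      ring)
  have he' : ∀ i, Even (finrank F ((A i).map e.toLinearMap)) := fun i => by
    rw [LinearEquiv.finrank_map_eq]
    exact he i
  have ho' : ∀ i j, i ≠ j → Odd (finrank F
      ((A i).map e.toLinearMap ⊓ (A j).map e.toLinearMap : Submodule F _)) := fun i j hij => by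
    rw [← Submodule.map_inf _ e.injective, LinearEquiv.finrank_map_eq]
    exact ho i j hij
  have hinj : Function.Injective fun i => (A i).map e.toLinearMap := fun i j hij => by
    by_contra hne
    have h1 := ho' i j hne
    simp only at hij
    rw [← hij, inf_idem] at h1
    exact Nat.not_even_iff_odd.2 h1 (he' i)
  have hcard : (Finset.univ.image fun i => (A i).map e.toLinearMap).card =
      (Nat.card F + 1) * Nat.card F ^ k * ∑ i ∈ Finset.range k, Nat.card F ^ i := by
    rw [Finset.card_image_of_injective _ hinj, Finset.card_univ, Fintype.card_eq_nat_card, hc]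
  refine ⟨Finset.univ.image fun i => (A i).map e.toLinearMap, ?_, ?_, hcard, ?_⟩
  · intro B hB
    obtain ⟨i, -, rfl⟩ := Finset.mem_image.1 hB
    exact he' i
  · intro B hB C hC hne
    obtain ⟨i, -, rfl⟩ := Finset.mem_image.1 hB
    obtain ⟨j, -, rfl⟩ := Finset.mem_image.1 hC
    exact ho' i j fun h => hne (by rw [h])
  · rw [hcard]
    exact count_lt Finite.one_lt_card hk.two_le

end Pool.Agent.Results.MP_489091_co.Counterexample
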